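import Pool.Agent.L0h86.JQ.StmA
import Pool.Agent.L0h88.SJ.ASM

/-!
# Project JQ, module ASMS: from the moments to the law, both signs (edit of `L0h88/SJ/ASM`)
-/

set_option autoImplicit false

open scoped Classical

namespace Pool.Agent.L0h66.JQ

open Finset Filter Topology
open Pool.Agent.L0h1.SJ (eta ps sx pt Gv cnt ak de sz S_BON S_EUL)
open Pool.Agent.L0h86.JQ
open Pool.Agent.L0h88.SJ.ASM (prod_diff cnt_zero)

/-- the products of linear combinations -/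
lemma mom_abs {S : Type} [Fintype S] {t : ℕ} (M : S → Fin t → ℕ → ℝ) (P : ℝ) (R : Finset ℕ)
    (c : ℕ → ℝ) (g : Fin t → ℕ → ℝ) (e : ℝ) (h : ∀ κ : Fin t → ℕ, (∀ l, κ l ∈ R) →
      |(∑ σ, ∏ l, M σ l (κ l)) / P - ∏ l, g l (κ l)| ≤ e) :
    |(∑ σ, ∏ l, ∑ k ∈ R, c k * M σ l k) / P - ∏ l, ∑ k ∈ R, c k * g l k| ≤
      e * (∑ k ∈ R, |c k|) ^ t := by
  have h1 : ∀ σ, ∏ l, ∑ k ∈ R, c k * M σ l k =
      ∑ κ ∈ Fintype.piFinset (fun _ : Fin t => R), (∏ l, c (κ l)) * ∏ l, M σ l (κ l) := by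
    intro σ
    rw [Finset.prod_univ_sum]
    exact Finset.sum_congr rfl fun κ _ => Finset.prod_mul_distrib
  have h2 : ∏ l, ∑ k ∈ R, c k * g l k =
      ∑ κ ∈ Fintype.piFinset (fun _ : Fin t => R), (∏ l, c (κ l)) * ∏ l, g l (κ l) := by
    rw [Finset.prod_univ_sum]
    exact Finset.sum_congr rfl fun κ _ => Finset.prod_mul_distrib
  have h4 : (∑ k ∈ R, |c k|) ^ t =
      ∑ κ ∈ Fintype.piFinset (fun _ : Fin t => R), ∏ l, |c (κ l)| := by
    have h3 : (∑ k ∈ R, |c k|) ^ t = ∏ _l : Fin t, ∑ k ∈ R, |c k| := by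
      rw [Finset.prod_const, Finset.card_univ, Fintype.card_fin]
    rw [h3, Finset.prod_univ_sum]
  have h5 : (∑ σ, ∏ l, ∑ k ∈ R, c k * M σ l k) / P - ∏ l, ∑ k ∈ R, c k * g l k =
      ∑ κ ∈ Fintype.piFinset (fun _ : Fin t => R),
        (∏ l, c (κ l)) * ((∑ σ, ∏ l, M σ l (κ l)) / P - ∏ l, g l (κ l)) := by
    rw [h2, Finset.sum_congr rfl fun σ _ => h1 σ, Finset.sum_comm, Finset.sum_div,
      ← Finset.sum_sub_distrib]
    apply Finset.sum_congr rfl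
    intro κ _
    rw [← Finset.mul_sum]
    ring
  rw [h5, h4, Finset.mul_sum]
  refine (Finset.abs_sum_le_sum_abs _ _).trans (Finset.sum_le_sum fun κ hκ => ?_)
  rw [abs_mul, abs_prod, mul_comm e]
  apply mul_le_mul_of_nonneg_left _ (Finset.prod_nonneg fun _ _ => abs_nonneg _)
  exact h κ fun l => (Fintype.mem_piFinset.mp hκ) l

/-- the weight of the system `l` -/
def gg {t : ℕ} (sg : Fin t → ZMod 2) (l : Fin t) (k : ℕ) : ℝ := if sg l = 1 then (2 : ℝ) ^ k else 1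

theorem t_ASMS : S_ASMS := by
  intro hBON hEUL hEULS hMOM t n sg ε hε
  have hg0 : ∀ l k, 0 < gg sg l k := fun l k => by
    unfold gg
    split_ifs <;> positivity
  -- the choice of `T`
  have hsl : ∀ l, Tendsto (fun T => ∑ k ∈ range (T + 1), ak k * gg sg l k) atTop
      (𝓝 (pS (sg l))) := by
    intro l
    by_cases h1 : sg l = 1
    · have e1 : ∀ k, gg sg l k = 2 ^ k := fun k => if_pos h1
      have e2 : pS (sg l) = eta := if_pos h1
      rw [e2]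
      simp only [e1]
      exact hEUL
    · have e1 : ∀ k, gg sg l k = 1 := fun k => if_neg h1
      have e2 : pS (sg l) = 2 * eta := if_neg h1
      rw [e2]
      simp only [e1, mul_one]
      exact hEULS
  have hrl : ∀ l, Tendsto (fun T => |ak (T + 1)| * gg sg l (T + 1)) atTop (𝓝 0) := by
    intro l
    have h1 : Tendsto (fun T => (∑ k ∈ range (T + 1 + 1), ak k * gg sg l k) -
        ∑ k ∈ range (T + 1), ak k * gg sg l k) atTop (𝓝 (pS (sg l) - pS (sg l))) :=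
      ((hsl l).comp (tendsto_add_atTop_nat 1)).sub (hsl l)
    rw [sub_self] at h1
    have h2 := h1.abs
    rw [abs_zero] at h2
    refine h2.congr fun T => ?_
    rw [Finset.sum_range_succ _ (T + 1), add_sub_cancel_left, abs_mul,
      abs_of_pos (hg0 l (T + 1))]
  obtain ⟨s, hs⟩ : ∃ s : ℕ → ℝ, s = fun T => ∏ l, ∑ k ∈ range (T + 1), ak k * gg sg l k :=
    ⟨_, rfl⟩
  obtain ⟨r, hr⟩ : ∃ r : ℕ → ℝ, r = fun T => ∏ l, (1 + |ak (T + 1)| * gg sg l (T + 1)) :=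
    ⟨_, rfl⟩
  have hs2 : Tendsto s atTop (𝓝 (∏ l, pS (sg l))) := by
    rw [hs]
    exact tendsto_finsetProd _ fun l _ => hsl l
  have hr2 : Tendsto r atTop (𝓝 1) := by
    have h1 : Tendsto r atTop (𝓝 (∏ _l : Fin t, (1 + 0 : ℝ))) := by
      rw [hr]
      exact tendsto_finsetProd _ fun l _ => (hrl l).const_add 1
    simpa using h1
  have hε4 : 0 < ε / 4 := by positivity
  obtain ⟨T, hT1, hT2⟩ : ∃ T, |s T - ∏ l, pS (sg l)| < ε / 4 ∧ |r T - 1| < ε / 4 := by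
    have h1 := (Metric.tendsto_atTop.mp hs2) (ε / 4) hε4
    have h2 := (Metric.tendsto_atTop.mp hr2) (ε / 4) hε4
    obtain ⟨n1, hn1⟩ := h1
    obtain ⟨n2, hn2⟩ := h2
    exact ⟨max n1 n2, hn1 _ (le_max_left _ _), hn2 _ (le_max_right _ _)⟩
  obtain ⟨A, hA⟩ : ∃ A : ℝ, A = (∑ k ∈ range (T + 1), |ak k|) ^ t := ⟨_, rfl⟩
  obtain ⟨B, hB⟩ : ∃ B : ℝ, B = (1 + |ak (T + 1)|) ^ t := ⟨_, rfl⟩
  have hA0 : 0 ≤ A := by rw [hA]; positivity
  have hB0 : 0 ≤ B := by rw [hB]; positivity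
  obtain ⟨e, he⟩ : ∃ e : ℝ, e = ε / 4 / (A + B + 1) := ⟨_, rfl⟩
  have he0 : 0 < e := by rw [he]; positivity
  have heA : e * A + e * B ≤ ε / 4 := by
    rw [← mul_add, he, div_mul_eq_mul_div, div_le_iff₀ (by positivity)]
    nlinarith
  choose C hC using fun κ : Fin t → ℕ => hMOM t n κ sg e he0
  refine ⟨(Fintype.piFinset fun _ : Fin t => range (T + 2)).sup C + 1,
    fun U _ J _ _ w uU uJ N NJ x JR hl hu hJR => ?_⟩
  have hsz : 1 ≤ sz U := by
    unfold sz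
    omega
  have hJne : Nonempty J := by
    have h1 : 1 ≤ (univ.filter fun k => uJ k = 1).card :=
      le_trans (Nat.le_trans (Nat.le_add_left 1 _) (Nat.le_mul_of_pos_right _ hsz)) hu
    obtain ⟨k, _⟩ := Finset.card_pos.mp h1
    exact ⟨k⟩
  obtain ⟨P, hP⟩ : ∃ P : ℝ, P = 2 ^ (ps J).card := ⟨_, rfl⟩
  have hP0 : 0 < P := by rw [hP]; positivity
  have hcard : (Fintype.card (ps J → ZMod 2) : ℝ) = P := by
    rw [Fintype.card_fun, ZMod.card, Fintype.card_coe, hP]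
    push_cast
    rfl
  have hmom : ∀ κ : Fin t → ℕ, (∀ l, κ l ∈ range (T + 2)) →
      |(∑ σ : ps J → ZMod 2, ∏ l, (cnt (κ l) (pt (N l) (sx σ)) : ℝ)) / P -
        ∏ l, gg sg l (κ l)| ≤ e := by
    intro κ hκ
    rw [hP]
    have h1 : C κ ≤ (Fintype.piFinset fun _ : Fin t => range (T + 2)).sup C + 1 :=
      (Finset.le_sup (f := C) (Fintype.mem_piFinset.mpr hκ)).trans (Nat.le_succ _)
    exact hC κ U J w uU uJ N NJ x JR hl ((Nat.mul_le_mul_right _ h1).trans hu)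
      (fun r => (Nat.mul_le_mul_right _ h1).trans (hJR r))
  have m1 := mom_abs (fun (σ : ps J → ZMod 2) l k => (cnt k (pt (N l) (sx σ)) : ℝ)) P
    (range (T + 1)) ak (gg sg) e (fun κ hκ => hmom κ fun l => by
      have := Finset.mem_range.mp (hκ l)
      exact Finset.mem_range.mpr (by omega))
  have m2 := mom_abs (fun (σ : ps J → ZMod 2) l k => (cnt k (pt (N l) (sx σ)) : ℝ)) P
    {0, T + 1} (fun k => if k = 0 then 1 else |ak (T + 1)|) (gg sg) e (fun κ hκ => hmom κ fun l => by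
      have h1 := hκ l
      rw [Finset.mem_insert, Finset.mem_singleton] at h1
      exact Finset.mem_range.mpr (by omega))
  have hne : (0 : ℕ) ≠ T + 1 := by omega
  have hg00 : ∀ l, gg sg l 0 = 1 := fun l => by
    unfold gg
    split_ifs <;> simp
  rw [Finset.sum_pair hne] at m2
  simp only [Finset.sum_pair hne, if_true, if_neg (Ne.symm hne), mul_one, one_mul,
    cnt_zero, Nat.cast_one, abs_one, abs_abs, hg00] at m2
  rw [← hB] at m2
  rw [← hA] at m1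
  have hsT : ∏ l, ∑ k ∈ range (T + 1), ak k * gg sg l k = s T := by rw [hs]
  have hrT : ∏ l, (1 + |ak (T + 1)| * gg sg l (T + 1)) = r T := by rw [hr]
  rw [hsT] at m1
  rw [hrT] at m2
  -- the numerator
  have hnum : ((univ.filter fun σ : ps J → ZMod 2 => ∀ l, Gv (pt (N l) (sx σ))).card : ℝ) =
      ∑ σ : ps J → ZMod 2, ∏ l, (if Gv (pt (N l) (sx σ)) then (1 : ℝ) else 0) := by
    rw [← Finset.sum_boole]
    apply Finset.sum_congr rfl
    intro σ _
    rw [Finset.prod_boole]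
    simp
  rw [hnum, ← hP]
  obtain ⟨X, hX⟩ : ∃ X : ℝ, X = ∑ σ : ps J → ZMod 2,
    ∏ l, (if Gv (pt (N l) (sx σ)) then (1 : ℝ) else 0) := ⟨_, rfl⟩
  obtain ⟨Y, hY⟩ : ∃ Y : ℝ, Y = ∑ σ : ps J → ZMod 2,
    ∏ l, ∑ k ∈ range (T + 1), ak k * (cnt k (pt (N l) (sx σ)) : ℝ) := ⟨_, rfl⟩
  obtain ⟨Z, hZ⟩ : ∃ Z : ℝ, Z = ∑ σ : ps J → ZMod 2,
    ∏ l, (1 + |ak (T + 1)| * (cnt (T + 1) (pt (N l) (sx σ)) : ℝ)) := ⟨_, rfl⟩
  rw [← hX]
  rw [← hY] at m1
  rw [← hZ] at m2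
  have hXY : |X - Y| ≤ Z - P := by
    rw [hX, hY, hZ, ← Finset.sum_sub_distrib, ← hcard]
    refine (Finset.abs_sum_le_sum_abs _ _).trans ?_
    have h1 : (Fintype.card (ps J → ZMod 2) : ℝ) = ∑ _σ : ps J → ZMod 2, (1 : ℝ) := by
      rw [Finset.sum_const, Finset.card_univ, nsmul_eq_mul, mul_one]
    rw [h1, ← Finset.sum_sub_distrib]
    apply Finset.sum_le_sum
    intro σ _
    apply prod_diff
    · intro l
      split_ifs <;> simp
    · intro l
      exact hBON (U l ⊕ J) (pt (N l) (sx σ)) T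
  have h1 : |X / P - Y / P| ≤ Z / P - 1 := by
    rw [← sub_div, abs_div, abs_of_pos hP0]
    have : Z / P - 1 = (Z - P) / P := by field_simp
    rw [this]
    exact div_le_div_of_nonneg_right hXY hP0.le
  have a1 := abs_le.mp m1
  have a2 := abs_le.mp m2
  have a3 := abs_le.mp h1
  have a4 := abs_lt.mp hT1
  have a5 := abs_lt.mp hT2
  rw [abs_le]
  constructor <;> linarith [a1.1, a1.2, a2.1, a2.2, a3.1, a3.2, a4.1, a4.2, a5.1, a5.2]

end Pool.Agent.L0h66.JQ
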