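import Pool.Agent.L0h86.JQ.Stm
import Pool.Agent.L0h26.JS.HYG

/-!
# JQ: the systems satisfy the hypotheses, both signs (module HYS, edit of HYG and HYR)
-/

set_option autoImplicit false
set_option linter.unusedSectionVars false
set_option linter.all false

open scoped Classical

namespace Pool.Agent.L0h66.JQ

open Finset
open Pool.Agent.Y703.CQ (nr)
open Pool.Agent.N973.ND (Pr ty uu)
open Pool.Agent.N916.GB (Po sy Vt)
open Pool.Agent.L0h74.EV (Cl n2)
open Pool.Agent.L0h74.AP (Cp)
open Pool.Agent.L0h86.JR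
open Pool.Agent.L0h86.JS
open Pool.Agent.L0h86.JQ
open Pool.Agent.L0h75.JR (cls par4 oR_odd oR_sf dvd_oR)
open Pool.Agent.L0h26.JS (nr_two' par8 odd_a)

/-- the system without flag -/
def sysN (b : Bool) (g a : ℕ) : Sr :=
  ⟨decide (g % 2 = 0 ∨ (oR g * a) % 4 = if b = true then 3 else 1),
    if g % 2 = 0 then 1 else 0,
    if (oR g * a) % 4 = (if b = true then 1 else 3) then 0 else 1,
    (oR g).primeFactors⟩

/-- the diagonal of the system -/
lemma dgN_eq (b : Bool) {u a g r q : ℕ} (hg : Squarefree g) (hgu : ∀ p, p.Prime → p ∣ g → p ∣ u)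
    (hr : r.Prime) (hu : uu q = 0)
    (hv : ∀ v, Po v → v ∣ u → nr v q = if v = r then 1 else 0)
    (h2 : nr q 2 = if r = 2 then 1 else 0) :
    dgR (sysN b g a) q = if r ∣ g then 1 else 0 := by
  have h0 : g ≠ 0 := hg.ne_zero
  have hW : ∀ v ∈ (oR g).primeFactors, Po v ∧ v ∣ g := by
    intro v hv
    have h3 := Nat.prime_of_mem_primeFactors hv
    have h4 := Nat.dvd_of_mem_primeFactors hv
    have h5 : v ≠ 2 := by
      rintro rfl
      have := oR_odd hg
      omega
    exact ⟨⟨h3, h5⟩, (dvd_oR h3 h5).1 h4⟩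
  have hs : ∑ v ∈ (oR g).primeFactors, sy (sysN b g a).r (sysN b g a).s q v =
      if r ≠ 2 ∧ r ∣ g then 1 else 0 := by
    have h6 : ∀ v ∈ (oR g).primeFactors, sy (sysN b g a).r (sysN b g a).s q v =
        if v = r then 1 else 0 := by
      intro v hv'
      obtain ⟨h7, h8⟩ := hW v hv'
      unfold sy
      rw [if_neg h7.2]
      exact hv v h7 (hgu v h7.1 h8)
    rw [Finset.sum_congr rfl h6, Finset.sum_ite_eq']
    by_cases h9 : r ≠ 2 ∧ r ∣ g
    · rw [if_pos h9, if_pos]
      rw [Nat.mem_primeFactors]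
      refine ⟨hr, (dvd_oR hr h9.1).2 h9.2, ?_⟩
      have := oR_odd hg
      omega
    · rw [if_neg h9, if_neg]
      intro h10
      obtain ⟨h7, h8⟩ := hW r h10
      exact h9 ⟨h7.2, h8⟩
  have h2n : 2 ∉ (oR g).primeFactors := fun h => (hW 2 h).1.2 rfl
  have hsy : sy (sysN b g a).r (sysN b g a).s q 2 = if r = 2 ∧ 2 ∣ g then 1 else 0 := by
    unfold sy
    rw [if_pos rfl, h2, hu, mul_zero, add_zero]
    show (if g % 2 = 0 then (1 : ZMod 2) else 0) * _ = _
    by_cases h3 : r = 2 <;> by_cases h4 : g % 2 = 0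
    · rw [if_pos h3, if_pos h4, if_pos ⟨h3, by omega⟩, mul_one]
    · rw [if_pos h3, if_neg h4, if_neg (fun h => h4 (by omega)), zero_mul]
    · rw [if_neg h3, mul_zero, if_neg (fun h => h3 h.1)]
    · rw [if_neg h3, mul_zero, if_neg (fun h => h3 h.1)]
  unfold dgR Vt
  show ∑ v ∈ if (sysN b g a).t = true then insert 2 (oR g).primeFactors else (oR g).primeFactors,
    sy (sysN b g a).r (sysN b g a).s q v = _
  by_cases ht : (sysN b g a).t = true
  · rw [if_pos ht, Finset.sum_insert h2n, hs, hsy]
    by_cases h3 : r = 2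
    · subst h3
      by_cases h4 : 2 ∣ g
      · simp [h4]
      · simp [h4]
    · by_cases h4 : r ∣ g
      · simp [h3, h4]
      · simp [h3, h4]
  · rw [if_neg ht, hs]
    have h5 : ¬ g % 2 = 0 := by
      intro h6
      apply ht
      show decide (g % 2 = 0 ∨ (oR g * a) % 4 = if b = true then 3 else 1) = true
      rw [decide_eq_true_eq]
      exact Or.inl h6
    by_cases h3 : r = 2
    · subst h3
      rw [if_neg (fun h => h.1 rfl), if_neg (fun h => h5 (by omega))]
    · by_cases h4 : r ∣ g
      · simp [h3, h4]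
      · simp [h4]

theorem sg_false : sgS false = 1 := rfl

theorem sg_true : sgS true = 0 := rfl

theorem t_HYS : Pool.Agent.L0h2.P.S_CLS → S_CL7 → S_HYS := by
  intro hCLS hCL7 u a hc h56 t b g hg hgu hinj
  have hu : 0 < u := hc.pos
  set e := u.primeFactors.equivFin with he
  have hpr : ∀ i : Fin u.primeFactors.card, ((e.symm i : ℕ)).Prime ∧ (e.symm i : ℕ) ∣ u := fun i =>
    ⟨Nat.prime_of_mem_primeFactors (e.symm i).2, Nat.dvd_of_mem_primeFactors (e.symm i).2⟩
  choose c hc1 hc2 hc3 using fun i : Fin u.primeFactors.card =>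
    cls hCLS hCL7 h56 hu (hpr i).1 (hpr i).2
  have ha2 : a % 2 = 1 := odd_a hc h56
  have hodd : ∀ l, (oR (g l) * a) % 2 = 1 := fun l => by
    rw [Nat.mul_mod, oR_odd (hg l), ha2]
  -- the flagged systems
  have hF : ∀ l, flS (b l) (g l) a = true → g l % 2 = 1 ∧ (g l * a) % 8 = if b l = true then 1 else 7 :=
    fun l h => of_decide_eq_true h
  have hoR : ∀ l, flS (b l) (g l) a = true → oR (g l) = g l := fun l h => by
    unfold oR
    rw [if_pos (hF l h).1]
  have hsT : ∀ l, flS (b l) (g l) a = true → sysS (b l) (g l) a = ⟨true, 1, 0, (g l).primeFactors⟩ := by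
    intro l h
    unfold sysS
    rw [if_pos h]
  have hsF : ∀ l, ¬ flS (b l) (g l) a = true → sysS (b l) (g l) a = sysN (b l) (g l) a := by
    intro l h
    unfold sysS sysN
    rw [if_neg h]
  have hWall : ∀ l, (sysS (b l) (g l) a).W = (oR (g l)).primeFactors := by
    intro l
    by_cases h : flS (b l) (g l) a = true
    · rw [hsT l h, hoR l h]
    · rw [hsF l h]
      rfl
  have hW : ∀ l, ∀ v ∈ (oR (g l)).primeFactors, Po v ∧ v ∣ u ∧ v ∣ g l := by
    intro l v hv
    have h3 := Nat.prime_of_mem_primeFactors hv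
    have h4 := Nat.dvd_of_mem_primeFactors hv
    have h5 : v ≠ 2 := by
      rintro rfl
      have := oR_odd (hg l)
      omega
    have h6 := (dvd_oR h3 h5).1 h4
    exact ⟨⟨h3, h5⟩, hgu l v h3 h6, h6⟩
  have hprod : ∀ l, ∀ S, Cl u a S →
      (∀ p ∈ S ∪ (oR (g l)).primeFactors, Po p) ∧
        (∏ p ∈ S ∪ (oR (g l)).primeFactors, p) % 8 = (oR (g l) * a) % 8 := by
    intro l S hS
    have hSu : Disjoint S (oR (g l)).primeFactors := by
      rw [Finset.disjoint_left]
      intro p hp hpW
      have h1 := (hW l p hpW).2.1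
      have h2 : p ∣ ∏ p ∈ S, p := Finset.dvd_prod_of_mem _ hp
      have h3 : p ∣ (∏ p ∈ S, p) % u := (Nat.dvd_mod_iff h1).2 h2
      rw [hS.2] at h3
      have h4 := Nat.dvd_gcd h3 h1
      rw [hc.cop] at h4
      exact (hS.1 p hp).1.one_lt.ne' (Nat.dvd_one.1 h4)
    constructor
    · intro p hp
      rcases Finset.mem_union.1 hp with h' | h'
      · exact ⟨(hS.1 p h').1, (hS.1 p h').2.1⟩
      · exact (hW l p h').1
    · rw [Finset.prod_union hSu]
      have h1 : ∏ p ∈ (oR (g l)).primeFactors, p = oR (g l) :=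
        Nat.prod_primeFactors_of_squarefree (oR_sf (hg l))
      have h2 : (∏ p ∈ S, p) % 8 = a % 8 := by
        rw [← hS.2, Nat.mod_mod_of_dvd _ ((by norm_num : 8 ∣ 56).trans h56)]
      rw [h1, Nat.mul_mod, h2, ← Nat.mul_mod, mul_comm]
  refine ⟨u.primeFactors.card, c, fun l i => if (e.symm i : ℕ) ∣ g l then 1 else 0, ?_⟩
  refine ⟨hc, h56, ?_, ?_, ?_, ?_, ?_, ?_, fun i => ⟨hc1 i, hc2 i⟩, ?_, ?_⟩
  · intro l hl
    by_cases h : flS (b l) (g l) a = true
    · simp only [hsT l h]
    · simp only [hsF l h] at hl ⊢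
      have h1 : ¬ (g l % 2 = 0 ∨ (oR (g l) * a) % 4 = if b l = true then 3 else 1) := by
        intro h2
        have h3 : (sysN (b l) (g l) a).t = true := decide_eq_true h2
        rw [hl] at h3
        exact absurd h3 (by decide)
      show (if (oR (g l) * a) % 4 = (if b l = true then 1 else 3) then (0 : ZMod 2) else 1) = 0
      have h2 := hodd l
      rcases hb : b l with _ | _
      · rw [hb] at h1
        simp only [Bool.false_eq_true, if_false] at h1 ⊢
        rw [if_pos (by omega)]
      · rw [hb] at h1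
        simp only [if_true] at h1 ⊢
        rw [if_pos (by omega)]
  · intro l hl
    by_cases h : flS (b l) (g l) a = true
    · left
      simp only [hsT l h]
      exact one_ne_zero
    · simp only [hsF l h] at hl ⊢
      have h1 : g l % 2 = 0 ∨ (oR (g l) * a) % 4 = if b l = true then 3 else 1 :=
        of_decide_eq_true hl
      rcases h1 with h2 | h2
      · left
        show (if g l % 2 = 0 then (1 : ZMod 2) else 0) ≠ 0
        rw [if_pos h2]
        exact one_ne_zero
      · right
        show (if (oR (g l) * a) % 4 = (if b l = true then 1 else 3) then (0 : ZMod 2) else 1) ≠ 0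
        rcases hb : b l with _ | _
        · rw [hb] at h2
          simp only [Bool.false_eq_true, if_false] at h2 ⊢
          rw [if_neg (by omega)]
          exact one_ne_zero
        · rw [hb] at h2
          simp only [if_true] at h2 ⊢
          rw [if_neg (by omega)]
          exact one_ne_zero
  · intro l h
    simp only [hsT l h]
    exact ⟨trivial, trivial, trivial⟩
  · intro l v hv
    simp only [hWall l] at hv
    exact ⟨(hW l v hv).1, (hW l v hv).2.1⟩
  · intro l S hS
    simp only [hWall l]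
    obtain ⟨h1, h2⟩ := hprod l S hS
    have h4 := par4 (S := S ∪ (oR (g l)).primeFactors) (fun p hp =>
      (h1 p hp).1.eq_two_or_odd.resolve_left (h1 p hp).2)
    have h8 : (∏ p ∈ S ∪ (oR (g l)).primeFactors, p) % 4 = (oR (g l) * a) % 4 := by omega
    have hcast : ∀ n : ℕ, (n % 2 = 0 → ((n : ℕ) : ZMod 2) = 0) ∧
        (n % 2 = 1 → ((n : ℕ) : ZMod 2) = 1) := fun n => by
      constructor
      · intro h
        exact (ZMod.natCast_eq_zero_iff n 2).2 (Nat.dvd_of_mod_eq_zero h)
      · intro h
        have : ((n : ℕ) : ZMod 2) = ((n % 2 : ℕ) : ZMod 2) := (ZMod.natCast_mod n 2).symm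
        rw [this, h]
        rfl
    by_cases h : flS (b l) (g l) a = true
    · have e1 : (sysS (b l) (g l) a).s = 0 := by rw [hsT l h]
      rw [e1, if_pos rfl, Nat.add_zero]
      have h5 := (hF l h).2
      rw [← hoR l h] at h5
      rcases hb : b l with _ | _
      · rw [hb] at h5
        simp only [Bool.false_eq_true, if_false] at h5
        show _ = sgS false
        rw [sg_false]
        apply (hcast _).2
        rcases h4 with ⟨h6, h7⟩ | ⟨h6, h7⟩
        · omega
        · exact h6
      · rw [hb] at h5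
        simp only [if_true] at h5
        show _ = sgS true
        rw [sg_true]
        apply (hcast _).1
        rcases h4 with ⟨h6, h7⟩ | ⟨h6, h7⟩
        · exact h6
        · omega
    · have e1 : (sysS (b l) (g l) a).s =
          (if (oR (g l) * a) % 4 = (if b l = true then 1 else 3) then (0 : ZMod 2) else 1) := by
        rw [hsF l h]
        rfl
      rw [e1]
      have h9 := hodd l
      rcases hb : b l with _ | _
      · simp only [Bool.false_eq_true, if_false]
        show _ = sgS false
        rw [sg_false]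
        apply (hcast _).2
        rcases h4 with ⟨h6, h7⟩ | ⟨h6, h7⟩
        · rw [if_neg (by omega : ¬ (oR (g l) * a) % 4 = 3), if_neg one_ne_zero]
          omega
        · rw [if_pos (by omega : (oR (g l) * a) % 4 = 3), if_pos rfl]
          omega
      · simp only [if_true]
        show _ = sgS true
        rw [sg_true]
        apply (hcast _).1
        rcases h4 with ⟨h6, h7⟩ | ⟨h6, h7⟩
        · rw [if_pos (by omega : (oR (g l) * a) % 4 = 1), if_pos rfl]
          omega
        · rw [if_neg (by omega : ¬ (oR (g l) * a) % 4 = 1), if_neg one_ne_zero]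
          omega
  · intro l h S hS
    simp only [hWall l]
    obtain ⟨h1, h2⟩ := hprod l S hS
    have h5 := (hF l h).2
    rw [← hoR l h] at h5
    rcases par8 h1 with ⟨h6, -⟩ | ⟨-, h6⟩
    · exact h6
    · rw [h2] at h6
      split_ifs at h5 <;> omega
  · intro l i p hp hpc
    obtain ⟨h1, h2, h3⟩ := hc3 i p hp hpc
    refine ⟨h1, ?_⟩
    unfold dgG
    by_cases h : flS (b l) (g l) a = true
    · rw [if_pos h]
      simp only [hWall l, hoR l h]
      have h6 : ∀ v ∈ (g l).primeFactors, nr v p = if v = (e.symm i : ℕ) then 1 else 0 := by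
        intro v hv
        rw [← hoR l h] at hv
        exact h2 v (hW l v hv).1 (hW l v hv).2.1
      rw [Finset.sum_congr rfl h6, Finset.sum_ite_eq']
      by_cases h7 : (e.symm i : ℕ) ∣ g l
      · rw [if_pos h7, if_pos (Nat.mem_primeFactors.2 ⟨(hpr i).1, h7, (hg l).ne_zero⟩)]
      · rw [if_neg h7, if_neg (fun h8 => h7 (Nat.dvd_of_mem_primeFactors h8))]
    · rw [if_neg h, hsF l h]
      exact dgN_eq (b l) (hg l) (hgu l) (hpr i).1 h1 h2 h3
  · intro l l' hll
    by_contra hcon
    push Not at hcon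
    apply hll
    apply hinj
    have h1 : ∀ p, p.Prime → p ∣ u → (p ∣ g l ↔ p ∣ g l') := by
      intro p hp hpu
      have h2 := hcon (e ⟨p, Nat.mem_primeFactors.2 ⟨hp, hpu, hu.ne'⟩⟩)
      rw [Equiv.symm_apply_apply] at h2
      by_cases h3 : p ∣ g l <;> by_cases h4 : p ∣ g l'
      · exact iff_of_true h3 h4
      · simp [h3, h4] at h2
      · simp [h3, h4] at h2
      · exact iff_of_false h3 h4
    rw [← Nat.prod_primeFactors_of_squarefree (hg l), ← Nat.prod_primeFactors_of_squarefree (hg l')]
    congr 1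
    ext p
    rw [Nat.mem_primeFactors, Nat.mem_primeFactors]
    constructor
    · rintro ⟨hp, hpg, -⟩
      exact ⟨hp, (h1 p hp (hgu l p hp hpg)).1 hpg, (hg l').ne_zero⟩
    · rintro ⟨hp, hpg, -⟩
      exact ⟨hp, (h1 p hp (hgu l' p hp hpg)).2 hpg, (hg l).ne_zero⟩

end Pool.Agent.L0h66.JQ
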